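import Pool.Agent.KS6_20.GP.Final

/-!
# Finite colourings of the plane and unbounded sets of distances

Soifer's question asks whether a finite colouring of the plane can avoid the distances `2 ^ n`.  Here
the answer is given for all sets of distances: a set `D` of distances which is bounded away from zero
can be avoided by a finite colouring of the plane if and only if it is bounded.  More strongly, every
set of positive upper density, and one of the colours of every finite colouring, contains pairs of
points at all sufficiently large distances.  No measurability is assumed.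
-/

set_option autoImplicit false

namespace Pool.Agent.Results.MP_fc94d9_co.UnboundedDistanceSets

/-- The Euclidean space of dimension `d`. -/
abbrev E (d : ℕ) := EuclideanSpace ℝ (Fin d)

/-- All sufficiently large numbers are distances of two points of `A`. -/
def AllLarge {d : ℕ} (A : Set (E d)) : Prop :=
  ∃ R : ℝ, ∀ s ≥ R, ∃ x ∈ A, ∃ y ∈ A, dist x y = s

/-- `A` has positive upper (Banach) density: for some `δ > 0` every nonempty finite set `V` of points
has a translate of which at least the proportion `δ` lies in `A`. -/
def PosDensity {d : ℕ} (A : Set (E d)) : Prop :=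
  ∃ δ : ℝ, 0 < δ ∧ ∀ V : Finset (E d), V.Nonempty →
    ∃ x, δ * V.card ≤ ({v | v ∈ V ∧ x + v ∈ A} : Set (E d)).ncard

theorem result :
    -- (1) for an unbounded set `D` of distances and `ε > 0` there are a finite set `F` of distances
    -- in `D` and a nonempty finite set `V` of points of the plane such that a set without two points
    -- at a distance in `F` contains at most `ε |V|` points of every isometric copy of `V`
    (∀ D : Set ℝ, ¬ BddAbove D → ∀ ε : ℝ, 0 < ε →
      ∃ F : Finset ℝ, ↑F ⊆ D ∧ ∃ V : Finset (E 2), V.Nonempty ∧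
        ∀ (X : Type) [MetricSpace X] (g : E 2 → X), Isometry g →
          ∀ A : Set X, (∀ x ∈ A, ∀ y ∈ A, dist x y ∉ F) →
            (({v | v ∈ V ∧ g v ∈ A} : Set (E 2)).ncard : ℝ) ≤ ε * V.card) ∧
    -- (2) sets of positive upper density realise all large distances
    (∀ d : ℕ, 2 ≤ d → ∀ A : Set (E d), PosDensity A → AllLarge A) ∧
    -- (3) in every finite colouring some colour realises all large distances
    (∀ d : ℕ, 2 ≤ d → ∀ (k : ℕ) (c : E d → Fin k), ∃ j, AllLarge {x | c x = j}) ∧
    -- (4) finite version, where every colour has its own unbounded set of distances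
    (∀ (k : ℕ) (D : Fin k → Set ℝ), (∀ j, ¬ BddAbove (D j)) →
      ∃ V : Finset (E 2), ∀ c : E 2 → Fin k,
        ∃ x ∈ V, ∃ y ∈ V, c x = c y ∧ dist x y ∈ D (c x)) ∧
    -- (5) for sets of distances bounded away from zero: some finite colouring avoids `D` if and only
    -- if `D` is bounded
    (∀ d : ℕ, 2 ≤ d → ∀ (r : ℝ) (D : Set ℝ), 0 < r → (∀ s ∈ D, r ≤ s) →
      ((∃ (k : ℕ) (c : E d → Fin k), ∀ x y, dist x y ∈ D → c x ≠ c y) ↔ BddAbove D)) := by
  refine ⟨Pool.Agent.KS6_20.GP.density, ?_, ?_, Pool.Agent.KS6_20.GP.finite_version, ?_⟩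
  · rintro d hd A ⟨δ, hδ, hA⟩
    exact Pool.Agent.KS6_20.GP.allLarge_of_density d hd A δ hδ hA
  · intro d hd k c
    exact Pool.Agent.KS6_20.GP.colour_allLarge d hd k c
  · intro d hd r D hr hD
    constructor
    · rintro ⟨k, c, hc⟩
      by_contra hunb
      obtain ⟨j, R, hR⟩ := Pool.Agent.KS6_20.GP.colour_allLarge d hd k c
      apply hunb
      refine ⟨R, fun s hs => ?_⟩
      by_contra hlt
      obtain ⟨x, hx, y, hy, hxy⟩ := hR s (le_of_not_ge hlt)
      exact hc x y (by rw [hxy]; exact hs) (by rw [hx, hy])
    · rintro ⟨R, hR⟩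
      obtain ⟨k, c, hc⟩ := Pool.Agent.KS6_20.GP.exists_colouring d (by omega) r R hr
      exact ⟨k, c, fun x y hxy => hc x y (hD _ hxy) (hR hxy)⟩

end Pool.Agent.Results.MP_fc94d9_co.UnboundedDistanceSets
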